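import Mathlib

set_option autoImplicit false

namespace Pool.Agent.KomH11

open Finset

section Counting

variable {I E : Type*} [DecidableEq I]

open Classical in
/-- Subsets of V that avoid all bad patterns of the events supported in V. -/
noncomputable def Good (S : E → Finset I) (Bad : E → Finset (Finset I)) (F : Finset E)
    (V : Finset I) : Finset (Finset I) :=
  V.powerset.filter (fun A => ∀ e ∈ F, S e ⊆ V → A ∩ S e ∉ Bad e)

theorem mem_Good (S : E → Finset I) (Bad : E → Finset (Finset I)) (F : Finset E)
    (V A : Finset I) :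
    A ∈ Good S Bad F V ↔ A ⊆ V ∧ ∀ e ∈ F, S e ⊆ V → A ∩ S e ∉ Bad e := by
  classical
  unfold Good
  rw [Finset.mem_filter, Finset.mem_powerset]

theorem Good_mono_pow (S : E → Finset I) (Bad : E → Finset (Finset I)) (F : Finset E)
    (b : ℝ) (hb : 0 ≤ b) (m : ℕ)
    (ih : ∀ V : Finset I, V.card < m → ∀ x, x ∉ V →
      b * ((Good S Bad F V).card : ℝ) ≤ ((Good S Bad F (insert x V)).card : ℝ))
    (W U : Finset I) (hdisj : Disjoint W U) (hcard : (W ∪ U).card ≤ m) :
    b ^ U.card * ((Good S Bad F W).card : ℝ) ≤ ((Good S Bad F (W ∪ U)).card : ℝ) := by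
  induction' U using Finset.induction_on with x U hx ihU
  · simp
  · have hxW : x ∉ W := by
      intro hc
      exact (Finset.disjoint_left.mp hdisj hc) (Finset.mem_insert_self x U)
    have hd : Disjoint W U := Finset.disjoint_of_subset_right (Finset.subset_insert x U) hdisj
    have hxWU : x ∉ W ∪ U := by
      rw [Finset.mem_union, not_or]; exact ⟨hxW, hx⟩
    have hun : W ∪ insert x U = insert x (W ∪ U) := by
      rw [Finset.union_insert]
    have hc2 : (W ∪ U).card < m := by
      rw [hun, Finset.card_insert_of_notMem hxWU] at hcard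
      omega
    have h1 := ihU hd hc2.le
    have h2 := ih (W ∪ U) hc2 x hxWU
    rw [hun, Finset.card_insert_of_notMem hx, pow_succ]
    calc b ^ U.card * b * ((Good S Bad F W).card : ℝ)
        = b * (b ^ U.card * ((Good S Bad F W).card : ℝ)) := by ring
      _ ≤ b * ((Good S Bad F (W ∪ U)).card : ℝ) := mul_le_mul_of_nonneg_left h1 hb
      _ ≤ _ := h2

/-- Counting form of the local lemma. -/
theorem counting_step (S : E → Finset I) (Bad : E → Finset (Finset I)) (F : Finset E)
    (b : ℝ) (hb : 0 < b)
    (hsum : ∀ x : I, ∑ e ∈ F.filter (fun e => x ∈ S e),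
      ((Bad e).card : ℝ) * (b⁻¹) ^ ((S e).card - 1) ≤ 2 - b) :
    ∀ (m : ℕ) (V : Finset I), V.card = m → ∀ x, x ∉ V →
      b * ((Good S Bad F V).card : ℝ) ≤ ((Good S Bad F (insert x V)).card : ℝ) := by
  classical
  intro m
  induction' m using Nat.strong_induction_on with m ih
  intro V hV x hx
  -- candidates
  set Cand : Finset (Finset I) := (Good S Bad F V) ∪ ((Good S Bad F V).image (insert x)) with hC
  have hxA : ∀ A ∈ Good S Bad F V, x ∉ A := by
    intro A hA hc
    exact hx (((mem_Good S Bad F V A).mp hA).1 hc)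
  have hCcard : Cand.card = 2 * (Good S Bad F V).card := by
    rw [hC, Finset.card_union_of_disjoint, Finset.card_image_of_injOn]
    · ring
    · intro A hA B hB hAB
      have h1 : A = (insert x A).erase x := (Finset.erase_insert (hxA A hA)).symm
      have h2 : B = (insert x B).erase x := (Finset.erase_insert (hxA B hB)).symm
      rw [h1, h2, hAB]
    · rw [Finset.disjoint_left]
      intro A hA hA'
      obtain ⟨B, _, hBA⟩ := Finset.mem_image.mp hA'
      exact hxA A hA (by rw [← hBA]; exact Finset.mem_insert_self _ _)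
  have hCmem : ∀ A ∈ Cand, A ⊆ insert x V ∧ A.erase x ∈ Good S Bad F V := by
    intro A hA
    rw [hC, Finset.mem_union] at hA
    rcases hA with hA | hA
    · refine ⟨(((mem_Good S Bad F V A).mp hA).1).trans (Finset.subset_insert _ _), ?_⟩
      rw [Finset.erase_eq_of_notMem (hxA A hA)]
      exact hA
    · obtain ⟨B, hB, hBA⟩ := Finset.mem_image.mp hA
      subst hBA
      refine ⟨Finset.insert_subset_insert _ ((mem_Good S Bad F V B).mp hB).1, ?_⟩
      rw [Finset.erase_insert (hxA B hB)]
      exact hB
  set Fx := F.filter (fun e => x ∈ S e ∧ S e ⊆ insert x V) with hFx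
  have hcover : Cand ⊆ Good S Bad F (insert x V) ∪
      Fx.biUnion (fun e => Cand.filter (fun A => A ∩ S e ∈ Bad e)) := by
    intro A hA
    rw [Finset.mem_union]
    by_cases hg : A ∈ Good S Bad F (insert x V)
    · left; exact hg
    · right
      rw [mem_Good] at hg
      push Not at hg
      obtain ⟨e, heF, heV, heB⟩ := hg (hCmem A hA).1
      rw [Finset.mem_biUnion]
      refine ⟨e, ?_, Finset.mem_filter.mpr ⟨hA, heB⟩⟩
      rw [hFx, Finset.mem_filter]
      refine ⟨heF, ?_, heV⟩
      by_contra hxe
      have hsub : S e ⊆ V := by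
        intro i hi
        rcases Finset.mem_insert.mp (heV hi) with h | h
        · rw [h] at hi; exact absurd hi hxe
        · exact h
      have := ((mem_Good S Bad F V _).mp (hCmem A hA).2).2 e heF hsub
      apply this
      have : A.erase x ∩ S e = A ∩ S e := by
        ext i
        simp only [Finset.mem_inter, Finset.mem_erase]
        constructor
        · rintro ⟨⟨_, h1⟩, h2⟩; exact ⟨h1, h2⟩
        · rintro ⟨h1, h2⟩
          exact ⟨⟨fun hc => hxe (by rw [← hc]; exact h2), h1⟩, h2⟩
      rw [this]; exact heB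
  have hcount : ∀ e ∈ Fx, ((Cand.filter (fun A => A ∩ S e ∈ Bad e)).card : ℝ) ≤
      ((Bad e).card : ℝ) * (b⁻¹) ^ ((S e).card - 1) * ((Good S Bad F V).card : ℝ) := by
    intro e he
    rw [hFx, Finset.mem_filter] at he
    obtain ⟨heF, hxe, heV⟩ := he
    have hinj : (Cand.filter (fun A => A ∩ S e ∈ Bad e)).card ≤
        ((Bad e) ×ˢ (Good S Bad F (V \ S e))).card := by
      refine Finset.card_le_card_of_injOn (fun A => (A ∩ S e, A \ S e)) ?_ ?_
      · intro A hA
        rw [Finset.mem_coe, Finset.mem_filter] at hA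
        rw [Finset.mem_coe, Finset.mem_product]
        refine ⟨hA.2, ?_⟩
        simp only
        rw [mem_Good]
        have hAc := hCmem A hA.1
        refine ⟨?_, ?_⟩
        · intro i hi
          rw [Finset.mem_sdiff] at hi ⊢
          refine ⟨?_, hi.2⟩
          rcases Finset.mem_insert.mp (hAc.1 hi.1) with h | h
          · exact absurd (by rw [h]; exact hxe) hi.2
          · exact h
        · intro e' he' hsub
          have hsubV : S e' ⊆ V := hsub.trans Finset.sdiff_subset
          have := ((mem_Good S Bad F V _).mp hAc.2).2 e' he' hsubV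
          have heq : (A \ S e) ∩ S e' = A.erase x ∩ S e' := by
            ext i
            simp only [Finset.mem_inter, Finset.mem_sdiff, Finset.mem_erase]
            constructor
            · rintro ⟨⟨h1, h2⟩, h3⟩
              exact ⟨⟨fun hc => h2 (by rw [hc]; exact hxe), h1⟩, h3⟩
            · rintro ⟨⟨h1, h2⟩, h3⟩
              exact ⟨⟨h2, (Finset.mem_sdiff.mp (hsub h3)).2⟩, h3⟩
          rw [heq]; exact this
      · intro A _ B _ hAB
        simp only [Prod.mk.injEq] at hAB
        rw [← Finset.sdiff_union_inter A (S e), ← Finset.sdiff_union_inter B (S e), hAB.1, hAB.2]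
    rw [Finset.card_product] at hinj
    have hpow : b ^ ((S e).card - 1) * ((Good S Bad F (V \ S e)).card : ℝ) ≤
        ((Good S Bad F V).card : ℝ) := by
      have h1 := Good_mono_pow S Bad F b hb.le m
        (fun V' hV' x' hx' => ih V'.card hV' V' rfl x' hx') (V \ S e) (V ∩ S e)
        (by
          rw [Finset.disjoint_left]
          intro i hi hi'
          exact (Finset.mem_sdiff.mp hi).2 (Finset.mem_inter.mp hi').2)
        (by
          rw [Finset.sdiff_union_inter]; omega)
      rw [Finset.sdiff_union_inter] at h1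
      have h2 : (V ∩ S e).card = (S e).card - 1 := by
        have : V ∩ S e = (S e).erase x := by
          ext i
          simp only [Finset.mem_inter, Finset.mem_erase]
          constructor
          · rintro ⟨h1, h2⟩
            exact ⟨fun hc => hx (by rw [← hc]; exact h1), h2⟩
          · rintro ⟨h1, h2⟩
            rcases Finset.mem_insert.mp (heV h2) with h | h
            · exact absurd h h1
            · exact ⟨h, h2⟩
        rw [this, Finset.card_erase_of_mem hxe]
      rw [h2] at h1
      exact h1
    have hG : ((Good S Bad F (V \ S e)).card : ℝ) ≤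
        (b⁻¹) ^ ((S e).card - 1) * ((Good S Bad F V).card : ℝ) := by
      rw [inv_pow, ← div_eq_inv_mul, le_div_iff₀ (pow_pos hb _), mul_comm]
      exact hpow
    calc ((Cand.filter (fun A => A ∩ S e ∈ Bad e)).card : ℝ)
        ≤ ((Bad e).card : ℝ) * ((Good S Bad F (V \ S e)).card : ℝ) := by exact_mod_cast hinj
      _ ≤ ((Bad e).card : ℝ) * ((b⁻¹) ^ ((S e).card - 1) * ((Good S Bad F V).card : ℝ)) :=
          mul_le_mul_of_nonneg_left hG (Nat.cast_nonneg _)
      _ = _ := by ring
  have hle := (Finset.card_le_card hcover).trans (Finset.card_union_le _ _)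
  have hle2 : (Fx.biUnion (fun e => Cand.filter (fun A => A ∩ S e ∈ Bad e))).card ≤
      ∑ e ∈ Fx, (Cand.filter (fun A => A ∩ S e ∈ Bad e)).card := Finset.card_biUnion_le
  have hle3 : (2 : ℝ) * ((Good S Bad F V).card : ℝ) ≤
      ((Good S Bad F (insert x V)).card : ℝ) +
      ∑ e ∈ Fx, ((Cand.filter (fun A => A ∩ S e ∈ Bad e)).card : ℝ) := by
    rw [hCcard] at hle
    have := hle.trans (Nat.add_le_add_left hle2 _)
    exact_mod_cast this
  have hle4 : ∑ e ∈ Fx, ((Cand.filter (fun A => A ∩ S e ∈ Bad e)).card : ℝ) ≤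
      (2 - b) * ((Good S Bad F V).card : ℝ) := by
    calc ∑ e ∈ Fx, ((Cand.filter (fun A => A ∩ S e ∈ Bad e)).card : ℝ)
        ≤ ∑ e ∈ Fx, ((Bad e).card : ℝ) * (b⁻¹) ^ ((S e).card - 1) *
            ((Good S Bad F V).card : ℝ) := Finset.sum_le_sum hcount
      _ = (∑ e ∈ Fx, ((Bad e).card : ℝ) * (b⁻¹) ^ ((S e).card - 1)) *
            ((Good S Bad F V).card : ℝ) := by rw [Finset.sum_mul]
      _ ≤ (2 - b) * ((Good S Bad F V).card : ℝ) := by
          refine mul_le_mul_of_nonneg_right ?_ (Nat.cast_nonneg _)
          refine le_trans (Finset.sum_le_sum_of_subset_of_nonneg ?_ ?_) (hsum x)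
          · intro e he
            rw [hFx, Finset.mem_filter] at he
            rw [Finset.mem_filter]
            exact ⟨he.1, he.2.1⟩
          · intro e _ _
            positivity
  linarith

/-- If the weighted counts are small at every point, some subset avoids all bad patterns. -/
theorem exists_good [Fintype I] (S : E → Finset I) (Bad : E → Finset (Finset I))
    (F : Finset E) (hne : ∀ e ∈ F, (S e).Nonempty) (b : ℝ) (hb : 0 < b)
    (hsum : ∀ x : I, ∑ e ∈ F.filter (fun e => x ∈ S e),
      ((Bad e).card : ℝ) * (b⁻¹) ^ ((S e).card - 1) ≤ 2 - b) :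
    ∃ A : Finset I, ∀ e ∈ F, A ∩ S e ∉ Bad e := by
  classical
  have hstep := counting_step S Bad F b hb hsum
  have h := Good_mono_pow S Bad F b hb.le (univ : Finset I).card
    (fun V _ x hx => hstep V.card V rfl x hx) ∅ univ (Finset.disjoint_empty_left _)
    (by rw [Finset.empty_union])
  rw [Finset.empty_union] at h
  have h0 : (∅ : Finset I) ∈ Good S Bad F ∅ := by
    rw [mem_Good]
    refine ⟨Finset.Subset.refl _, ?_⟩
    intro e he hsub
    exact absurd (Finset.subset_empty.mp hsub) (hne e he).ne_empty
  have hpos : (0 : ℝ) < ((Good S Bad F univ).card : ℝ) := by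
    refine lt_of_lt_of_le ?_ h
    have : (0 : ℝ) < ((Good S Bad F ∅).card : ℝ) := by
      exact_mod_cast Finset.card_pos.mpr ⟨_, h0⟩
    positivity
  have hpos' : 0 < (Good S Bad F univ).card := by exact_mod_cast hpos
  obtain ⟨A, hA⟩ := Finset.card_pos.mp hpos'
  exact ⟨A, fun e he => ((mem_Good S Bad F univ A).mp hA).2 e he (Finset.subset_univ _)⟩

end Counting

end Pool.Agent.KomH11
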