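import Mathlib

set_option autoImplicit false

namespace Pool.Agent.KomH11

open Finset

/-- Sorted pairing of a finite set of weighted elements. -/
theorem exists_pairing {H : Type*} [DecidableEq H] (m : H → ℝ) (S : Finset H) :
    ∃ p : H → H, (∀ h ∈ S, p h ∈ S) ∧ (∀ h ∈ S, p (p h) = h) ∧
      (∀ h ∈ S, ∀ h' ∈ S, h' ≠ h → h' ≠ p h →
        max (m h) (m (p h)) ≤ min (m h') (m (p h')) ∨
        max (m h') (m (p h')) ≤ min (m h) (m (p h))) ∧
      (∀ h ∈ S, p h = h → ∀ h' ∈ S, m h ≤ m h') ∧
      (∀ h ∈ S, ∀ h' ∈ S, p h = h → p h' = h' → h = h') := by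
  induction' hn : S.card using Nat.strong_induction_on with n ih generalizing S
  rcases Nat.lt_or_ge S.card 2 with h2 | h2
  · have hone : ∀ a ∈ S, ∀ b ∈ S, a = b := Finset.card_le_one.mp (by omega)
    refine ⟨id, fun h hh => hh, fun h _ => rfl, ?_, ?_, ?_⟩
    · intro h hh h' hh' hne _
      exact absurd (hone _ hh' _ hh) hne
    · intro h hh _ h' hh'
      rw [hone _ hh _ hh']
    · intro h hh h' hh' _ _
      exact hone _ hh _ hh'
  · have hne : S.Nonempty := Finset.card_pos.mp (by omega)
    obtain ⟨a, ha, hamax⟩ := S.exists_max_image m hne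
    have hne1 : (S.erase a).Nonempty := Finset.card_pos.mp (by
      rw [Finset.card_erase_of_mem ha]; omega)
    obtain ⟨b, hb, hbmax⟩ := (S.erase a).exists_max_image m hne1
    have hbS : b ∈ S := Finset.mem_of_mem_erase hb
    have hba : b ≠ a := Finset.ne_of_mem_erase hb
    have hcard : ((S.erase a).erase b).card < n := by
      rw [Finset.card_erase_of_mem hb, Finset.card_erase_of_mem ha]; omega
    obtain ⟨q, q1, q2, q3, q4, q5⟩ := ih _ hcard ((S.erase a).erase b) rfl
    have memS2 : ∀ h, h ∈ (S.erase a).erase b ↔ h ≠ b ∧ h ≠ a ∧ h ∈ S := by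
      intro h; rw [Finset.mem_erase, Finset.mem_erase]
    set p : H → H := fun h => if h = a then b else if h = b then a else q h with hp
    have pa : p a = b := by simp [hp]
    have pb : p b = a := by simp [hp, hba]
    have pq : ∀ h, h ≠ a → h ≠ b → p h = q h := by
      intro h h1 h2; simp [hp, h1, h2]
    have hab : a ≠ b := fun h => hba h.symm
    refine ⟨p, ?_, ?_, ?_, ?_, ?_⟩
    · intro h hh
      by_cases h1 : h = a
      · rw [h1, pa]; exact hbS
      by_cases h2 : h = b
      · rw [h2, pb]; exact ha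
      rw [pq h h1 h2]
      exact ((memS2 _).mp (q1 h ((memS2 h).mpr ⟨h2, h1, hh⟩))).2.2
    · intro h hh
      by_cases h1 : h = a
      · rw [h1, pa, pb]
      by_cases h2 : h = b
      · rw [h2, pb, pa]
      have hm : h ∈ (S.erase a).erase b := (memS2 h).mpr ⟨h2, h1, hh⟩
      have hq := (memS2 _).mp (q1 h hm)
      rw [pq h h1 h2, pq _ hq.2.1 hq.1]
      exact q2 h hm
    · -- intervals
      have key : ∀ h ∈ S, h ≠ a → h ≠ b → max (m h) (m (p h)) ≤ min (m a) (m b) := by
        intro h hh h1 h2
        have hm : h ∈ (S.erase a).erase b := (memS2 h).mpr ⟨h2, h1, hh⟩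
        have hq := (memS2 _).mp (q1 h hm)
        have hpm : p h ∈ S.erase a := by
          rw [pq h h1 h2]; exact Finset.mem_erase.mpr ⟨hq.2.1, hq.2.2⟩
        have e1 : m h ≤ m b := hbmax h (Finset.mem_erase.mpr ⟨h1, hh⟩)
        have e2 : m (p h) ≤ m b := hbmax _ hpm
        have e3 : m b ≤ m a := hamax b hbS
        exact le_min (max_le (e1.trans e3) (e2.trans e3)) (max_le e1 e2)
      intro h hh h' hh' hn1 hn2
      by_cases h1 : h = a
      · subst h1
        rw [pa] at hn2
        right
        rw [pa]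
        exact key h' hh' hn1 hn2
      by_cases h2 : h = b
      · subst h2
        rw [pb] at hn2
        right
        rw [pb, min_comm]
        exact key h' hh' hn2 hn1
      by_cases h3 : h' = a
      · subst h3
        left
        rw [pa]
        exact key h hh h1 h2
      by_cases h4 : h' = b
      · subst h4
        left
        rw [pb, min_comm]
        exact key h hh h1 h2
      rw [pq h h1 h2] at hn2 ⊢
      rw [pq h' h3 h4]
      exact q3 h ((memS2 h).mpr ⟨h2, h1, hh⟩) h' ((memS2 h').mpr ⟨h4, h3, hh'⟩) hn1 hn2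
    · intro h hh hfix h' hh'
      have h1 : h ≠ a := by rintro rfl; rw [pa] at hfix; exact hba hfix
      have h2 : h ≠ b := by rintro rfl; rw [pb] at hfix; exact hab hfix
      have hhb : m h ≤ m b := hbmax h (Finset.mem_erase.mpr ⟨h1, hh⟩)
      by_cases h3 : h' = a
      · rw [h3]; exact hhb.trans (hamax b hbS)
      by_cases h4 : h' = b
      · rw [h4]; exact hhb
      rw [pq h h1 h2] at hfix
      exact q4 h ((memS2 h).mpr ⟨h2, h1, hh⟩) hfix h' ((memS2 h').mpr ⟨h4, h3, hh'⟩)
    · intro h hh h' hh' hfix hfix'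
      have h1 : h ≠ a := by rintro rfl; rw [pa] at hfix; exact hba hfix
      have h2 : h ≠ b := by rintro rfl; rw [pb] at hfix; exact hab hfix
      have h3 : h' ≠ a := by rintro rfl; rw [pa] at hfix'; exact hba hfix'
      have h4 : h' ≠ b := by rintro rfl; rw [pb] at hfix'; exact hab hfix'
      rw [pq h h1 h2] at hfix
      rw [pq h' h3 h4] at hfix'
      exact q5 h ((memS2 h).mpr ⟨h2, h1, hh⟩) h' ((memS2 h').mpr ⟨h4, h3, hh'⟩) hfix hfix'

/-- Total length of the intervals of a sorted pairing. -/
theorem sum_delta_le {H : Type*} [DecidableEq H] (w : H → ℝ) (p : H → H) (T : Finset H)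
    (m M : ℝ) (hp : ∀ h ∈ T, p h ∈ T) (hinv : ∀ h ∈ T, p (p h) = h)
    (hdis : ∀ h ∈ T, ∀ h' ∈ T, h' ≠ h → h' ≠ p h →
        max (w h) (w (p h)) ≤ min (w h') (w (p h')) ∨
        max (w h') (w (p h')) ≤ min (w h) (w (p h)))
    (hm : ∀ h ∈ T, m ≤ w h) (hM : ∀ h ∈ T, w h ≤ M) (hmM : m ≤ M) :
    ∑ h ∈ T, |w h - w (p h)| ≤ 2 * (M - m) := by
  have hperm : ∑ h ∈ T, w (p h) = ∑ h ∈ T, w h := by
    refine Finset.sum_nbij' p p hp hp hinv hinv ?_
    intro h hh
    rfl
  have habs : ∀ x : ℝ, |x| = 2 * max x 0 - x := by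
    intro x
    rcases le_total 0 x with h | h
    · rw [abs_of_nonneg h, max_eq_left h]; ring
    · rw [abs_of_nonpos h, max_eq_right h]; ring
  have e1 : ∑ h ∈ T, |w h - w (p h)| = 2 * ∑ h ∈ T, max (w h - w (p h)) 0 := by
    have : ∀ h ∈ T, |w h - w (p h)| = 2 * max (w h - w (p h)) 0 - (w h - w (p h)) :=
      fun h _ => habs _
    rw [Finset.sum_congr rfl this, Finset.sum_sub_distrib, Finset.sum_sub_distrib, hperm,
      ← Finset.mul_sum]
    ring
  have e2 : ∑ h ∈ T, max (w h - w (p h)) 0 = ∑ h ∈ T.filter (fun h => w (p h) < w h),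
      (w h - w (p h)) := by
    rw [Finset.sum_filter]
    refine Finset.sum_congr rfl ?_
    intro h _
    split_ifs with hc
    · exact max_eq_left (by linarith)
    · exact max_eq_right (by linarith)
  rw [e1, e2]
  have e3 : ∑ h ∈ T.filter (fun h => w (p h) < w h), (w h - w (p h)) ≤ M - m := by
    have hd : ((T.filter (fun h => w (p h) < w h) : Finset H) : Set H).PairwiseDisjoint
        (fun h => Set.Ioo (w (p h)) (w h)) := by
      intro h hh h' hh' hne
      simp only [Finset.coe_filter, Set.mem_ofPred_eq] at hh hh'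
      have hne2 : h' ≠ p h := by
        rintro rfl
        have := hinv h hh.1
        rw [this] at hh'
        linarith [hh.2, hh'.2]
      rw [Function.onFun, Set.disjoint_left]
      intro x hx hx'
      simp only [Set.mem_Ioo] at hx hx'
      rcases hdis h hh.1 h' hh'.1 (Ne.symm hne) hne2 with hc | hc
      · have := (le_max_left (w h) (w (p h))).trans (hc.trans (min_le_right _ _))
        linarith [hx.2, hx'.1]
      · have := (le_max_left (w h') (w (p h'))).trans (hc.trans (min_le_right _ _))
        linarith [hx.1, hx'.2]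
    have hmeas := MeasureTheory.measure_biUnion_finset (μ := MeasureTheory.volume) hd
      (fun b _ => measurableSet_Ioo)
    have hsub : (⋃ h ∈ T.filter (fun h => w (p h) < w h), Set.Ioo (w (p h)) (w h)) ⊆
        Set.Ioo m M := by
      intro x hx
      simp only [Set.mem_iUnion, Set.mem_Ioo] at hx
      obtain ⟨h, hh, hx1, hx2⟩ := hx
      have hT := (Finset.mem_filter.mp hh).1
      exact ⟨lt_of_le_of_lt (hm _ (hp h hT)) hx1, lt_of_lt_of_le hx2 (hM h hT)⟩
    have hle := MeasureTheory.measure_mono (μ := MeasureTheory.volume) hsub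
    rw [hmeas, Real.volume_Ioo] at hle
    have hconv : ∑ h ∈ T.filter (fun h => w (p h) < w h),
        MeasureTheory.volume (Set.Ioo (w (p h)) (w h)) =
        ENNReal.ofReal (∑ h ∈ T.filter (fun h => w (p h) < w h), (w h - w (p h))) := by
      rw [ENNReal.ofReal_sum_of_nonneg]
      · refine Finset.sum_congr rfl ?_
        intro h _
        rw [Real.volume_Ioo]
      · intro h hh
        have := (Finset.mem_filter.mp hh).2
        linarith
    rw [hconv] at hle
    exact (ENNReal.ofReal_le_ofReal_iff (by linarith)).mp hle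
  linarith

end Pool.Agent.KomH11
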