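import Pool.Agent.LibKomH11.Pairing

set_option autoImplicit false

namespace Pool.Agent.KomH11

open Finset

/-- Signs that make two reals as opposite as possible. -/
theorem exists_sign (x y : ℝ) : ∃ t : ℝ, (t = 1 ∨ t = -1) ∧ |x + t * y| = |(|x| - |y|)| := by
  rcases le_total 0 x with hx | hx <;> rcases le_total 0 y with hy | hy
  · refine ⟨-1, Or.inr rfl, ?_⟩
    rw [abs_of_nonneg hx, abs_of_nonneg hy]; congr 1; ring
  · refine ⟨1, Or.inl rfl, ?_⟩
    rw [abs_of_nonneg hx, abs_of_nonpos hy]; congr 1; ring
  · refine ⟨1, Or.inl rfl, ?_⟩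
    rw [abs_of_nonpos hx, abs_of_nonneg hy, ← abs_neg]; congr 1; ring
  · refine ⟨-1, Or.inr rfl, ?_⟩
    rw [abs_of_nonpos hx, abs_of_nonpos hy, ← abs_neg]; congr 1; ring

/-- The smaller absolute weight of a pair. -/
noncomputable def lo {H : Type*} (w : H → ℝ) (p : H → H) (h : H) : ℝ := min |w h| |w (p h)|

/-- State of the merging process. -/
structure Inv {I : Type*} [Fintype I] [DecidableEq I] (w : I × Bool → ℝ)
    (p : I × Bool → I × Bool) (Q B : Finset (I × Bool)) (cl : I → I) (s : I → ℝ) : Prop where
  qnf : ∀ h ∈ Q, p h ≠ h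
  qpi : ∀ h ∈ Q, p h ∈ Q
  ord : ∀ h ∈ Q, ∀ h', p h' ≠ h' → h' ∉ Q → lo w p h' ≤ lo w p h
  sgn : ∀ i, s i = 1 ∨ s i = -1
  clq : ∀ h ∈ Q, cl (p h).1 = cl h.1
  bq : ∀ h ∈ B, h ∈ Q
  bpi : ∀ h ∈ B, p h ∈ B
  sat : ∀ h ∈ Q, h ∉ B → |s h.1 * w h + s (p h).1 * w (p h)| ≤ |(|w h| - |w (p h)|)|
  cnt : ∀ c, (univ.filter (fun h : I × Bool => h ∉ Q ∧ cl h.1 = c)).card ≤ 2
  brk : ∀ b ∈ B, ∀ h : I × Bool, cl h.1 = cl b.1 → h ∈ Q ∧ lo w p b ≤ |w h|
  uni : ∀ b ∈ B, ∀ b' ∈ B, cl b'.1 = cl b.1 → b' = b ∨ b' = p b

theorem Inv.start {I : Type*} [Fintype I] [DecidableEq I] (w : I × Bool → ℝ)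
    (p : I × Bool → I × Bool) : Inv w p ∅ ∅ id (fun _ => 1) where
  qnf := by simp
  qpi := by simp
  ord := by simp
  sgn := by intro i; left; rfl
  clq := by simp
  bq := by simp
  bpi := by simp
  sat := by simp
  cnt := by
    intro c
    have : (univ.filter (fun h : I × Bool => h ∉ (∅ : Finset (I × Bool)) ∧ id h.1 = c)) ⊆
        {(c, true), (c, false)} := by
      intro h hh
      simp only [Finset.mem_filter, Finset.mem_univ, true_and, Finset.notMem_empty,
        not_false_eq_true, id] at hh
      rcases h with ⟨i, b⟩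
      simp only at hh
      subst hh
      cases b <;> simp
    exact (Finset.card_le_card this).trans Finset.card_le_two
  brk := by simp
  uni := by simp

theorem Inv.step {I : Type*} [Fintype I] [DecidableEq I] (w : I × Bool → ℝ)
    (p : I × Bool → I × Bool) (hpp : ∀ h, p (p h) = h) (Q B : Finset (I × Bool)) (cl : I → I)
    (s : I → ℝ) (inv : Inv w p Q B cl s) (h : I × Bool) (hnf : p h ≠ h) (hQ : h ∉ Q)
    (hmax : ∀ h', p h' ≠ h' → h' ∉ Q → lo w p h' ≤ lo w p h) :
    ∃ B' cl' s', Inv w p (insert h (insert (p h) Q)) B' cl' s' := by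
  have hpQ : p h ∉ Q := fun hc => hQ (by have := inv.qpi _ hc; rwa [hpp] at this)
  have hlo : ∀ g, lo w p (p g) = lo w p g := by
    intro g
    unfold lo
    rw [hpp, min_comm]
  have memQ' : ∀ g, g ∈ insert h (insert (p h) Q) ↔ g = h ∨ g = p h ∨ g ∈ Q := by
    intro g; rw [Finset.mem_insert, Finset.mem_insert]
  have qnf' : ∀ g ∈ insert h (insert (p h) Q), p g ≠ g := by
    intro g hg
    rcases (memQ' g).mp hg with rfl | rfl | hg
    · exact hnf
    · rw [hpp]; exact fun hc => hnf hc.symm
    · exact inv.qnf g hg
  have qpi' : ∀ g ∈ insert h (insert (p h) Q), p g ∈ insert h (insert (p h) Q) := by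
    intro g hg
    rcases (memQ' g).mp hg with rfl | rfl | hg
    · exact (memQ' _).mpr (Or.inr (Or.inl rfl))
    · exact (memQ' _).mpr (Or.inl (hpp h))
    · exact (memQ' _).mpr (Or.inr (Or.inr (inv.qpi g hg)))
  have ord' : ∀ g ∈ insert h (insert (p h) Q), ∀ h', p h' ≠ h' →
      h' ∉ insert h (insert (p h) Q) → lo w p h' ≤ lo w p g := by
    intro g hg h' hnf' hh'
    have hh'Q : h' ∉ Q := fun hc => hh' ((memQ' _).mpr (Or.inr (Or.inr hc)))
    rcases (memQ' g).mp hg with rfl | rfl | hg
    · exact hmax h' hnf' hh'Q
    · rw [hlo]; exact hmax h' hnf' hh'Q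
    · exact inv.ord g hg h' hnf' hh'Q
  have memh : ∀ g, g ∉ insert h (insert (p h) Q) ↔ g ≠ h ∧ g ≠ p h ∧ g ∉ Q := by
    intro g
    rw [memQ' g]
    tauto
  by_cases hcl : cl (p h).1 = cl h.1
  · -- same class
    have hfin : ∀ g : I × Bool, cl g.1 = cl h.1 → g ∉ Q → g = h ∨ g = p h := by
      intro g hg hgQ
      by_contra hcon
      push Not at hcon
      have hsub : ({g, h, p h} : Finset (I × Bool)) ⊆
          univ.filter (fun k : I × Bool => k ∉ Q ∧ cl k.1 = cl h.1) := by
        intro k hk
        simp only [Finset.mem_insert, Finset.mem_singleton] at hk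
        simp only [Finset.mem_filter, Finset.mem_univ, true_and]
        rcases hk with rfl | rfl | rfl
        · exact ⟨hgQ, hg⟩
        · exact ⟨hQ, rfl⟩
        · exact ⟨hpQ, hcl⟩
      have h3 : ({g, h, p h} : Finset (I × Bool)).card = 3 := by
        rw [Finset.card_insert_of_notMem, Finset.card_insert_of_notMem, Finset.card_singleton]
        · rw [Finset.mem_singleton]; exact fun hc => hnf hc.symm
        · simp only [Finset.mem_insert, Finset.mem_singleton, not_or]
          exact hcon
      have := Finset.card_le_card hsub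
      rw [h3] at this
      have := inv.cnt (cl h.1)
      omega
    have cnt' : ∀ c, (univ.filter (fun g : I × Bool =>
        g ∉ insert h (insert (p h) Q) ∧ cl g.1 = c)).card ≤ 2 := by
      intro c
      refine le_trans (Finset.card_le_card ?_) (inv.cnt c)
      intro g hg
      simp only [Finset.mem_filter, Finset.mem_univ, true_and] at hg ⊢
      exact ⟨((memh g).mp hg.1).2.2, hg.2⟩
    have clq' : ∀ g ∈ insert h (insert (p h) Q), cl (p g).1 = cl g.1 := by
      intro g hg
      rcases (memQ' g).mp hg with rfl | rfl | hg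
      · exact hcl
      · rw [hpp]; exact hcl.symm
      · exact inv.clq g hg
    by_cases hsat : |s h.1 * w h + s (p h).1 * w (p h)| ≤ |(|w h| - |w (p h)|)|
    · refine ⟨B, cl, s, qnf', qpi', ord', inv.sgn, clq', ?_, inv.bpi, ?_, cnt', ?_, inv.uni⟩
      · intro g hg; exact (memQ' g).mpr (Or.inr (Or.inr (inv.bq g hg)))
      · intro g hg hgB
        rcases (memQ' g).mp hg with rfl | rfl | hg
        · exact hsat
        · rw [hpp, add_comm, abs_sub_comm]; exact hsat
        · exact inv.sat g hg hgB
      · intro b hb g hg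
        have := inv.brk b hb g hg
        exact ⟨(memQ' g).mpr (Or.inr (Or.inr this.1)), this.2⟩
    · refine ⟨insert h (insert (p h) B), cl, s, qnf', qpi', ord', inv.sgn, clq', ?_, ?_, ?_,
        cnt', ?_, ?_⟩
      · intro g hg
        rw [Finset.mem_insert, Finset.mem_insert] at hg
        rw [memQ']
        rcases hg with hg | hg | hg
        · exact Or.inl hg
        · exact Or.inr (Or.inl hg)
        · exact Or.inr (Or.inr (inv.bq g hg))
      · intro g hg
        rw [Finset.mem_insert, Finset.mem_insert] at hg ⊢
        rcases hg with rfl | rfl | hg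
        · right; left; rfl
        · left; exact hpp h
        · right; right; exact inv.bpi g hg
      · intro g hg hgB
        rw [Finset.mem_insert, Finset.mem_insert, not_or, not_or] at hgB
        rcases (memQ' g).mp hg with rfl | rfl | hg
        · exact absurd rfl hgB.1
        · exact absurd rfl hgB.2.1
        · exact inv.sat g hg hgB.2.2
      · have key : ∀ g : I × Bool, cl g.1 = cl h.1 →
            g ∈ insert h (insert (p h) Q) ∧ lo w p h ≤ |w g| := by
          intro g hg
          by_cases hgQ : g ∈ Q
          · refine ⟨(memQ' g).mpr (Or.inr (Or.inr hgQ)), ?_⟩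
            exact (inv.ord g hgQ h hnf hQ).trans (min_le_left _ _)
          · rcases hfin g hg hgQ with rfl | rfl
            · exact ⟨(memQ' _).mpr (Or.inl rfl), min_le_left _ _⟩
            · exact ⟨(memQ' _).mpr (Or.inr (Or.inl rfl)), min_le_right _ _⟩
        intro b hb g hg
        rw [Finset.mem_insert, Finset.mem_insert] at hb
        rcases hb with rfl | rfl | hb
        · exact key g hg
        · rw [hlo]; exact key g (hg.trans hcl)
        · have := inv.brk b hb g hg
          exact ⟨(memQ' g).mpr (Or.inr (Or.inr this.1)), this.2⟩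
      · have old : ∀ b ∈ B, cl b.1 ≠ cl h.1 := by
          intro b hb hc
          exact hQ (inv.brk b hb h hc.symm).1
        intro b hb b' hb' hbb
        rw [Finset.mem_insert, Finset.mem_insert] at hb hb'
        rcases hb with rfl | rfl | hb
        · rcases hb' with rfl | rfl | hb'
          · left; rfl
          · right; rfl
          · exact absurd hbb (old b' hb')
        · rcases hb' with rfl | rfl | hb'
          · right; exact (hpp _).symm
          · left; rfl
          · exact absurd (hbb.trans hcl) (old b' hb')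
        · rcases hb' with rfl | rfl | hb'
          · exact absurd hbb.symm (old b hb)
          · exact absurd (hbb.symm.trans hcl) (old b hb)
          · exact inv.uni b hb b' hb' hbb
  · -- different classes: merge
    obtain ⟨t, ht, htabs⟩ := exists_sign (s h.1 * w h) (s (p h).1 * w (p h))
    have habs : ∀ i (x : ℝ), |s i * x| = |x| := by
      intro i x
      rw [abs_mul]
      rcases inv.sgn i with h1 | h1 <;> rw [h1] <;> simp
    have oldB : ∀ b ∈ B, cl b.1 ≠ cl h.1 ∧ cl b.1 ≠ cl (p h).1 := by
      intro b hb
      exact ⟨fun hc => hQ (inv.brk b hb h hc.symm).1,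
        fun hc => hpQ (inv.brk b hb (p h) hc.symm).1⟩
    set cl' : I → I := fun i => if cl i = cl (p h).1 then cl h.1 else cl i with hcl'
    set s' : I → ℝ := fun i => if cl i = cl (p h).1 then t * s i else s i with hs'
    have hne : ¬ cl h.1 = cl (p h).1 := fun hc => hcl hc.symm
    have c1 : cl' h.1 = cl h.1 := by simp only [hcl']; rw [if_neg hne]
    have c2 : cl' (p h).1 = cl h.1 := if_pos rfl
    have s1 : s' h.1 = s h.1 := by simp only [hs']; rw [if_neg hne]
    have s2 : s' (p h).1 = t * s (p h).1 := if_pos rfl
    have clB : ∀ b ∈ B, cl' b.1 = cl b.1 := by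
      intro b hb
      simp only [hcl']
      rw [if_neg (oldB b hb).2]
    have satnew : |s' h.1 * w h + s' (p h).1 * w (p h)| ≤ |(|w h| - |w (p h)|)| := by
      rw [s1, s2, mul_assoc, htabs, habs, habs]
    refine ⟨B, cl', s', qnf', qpi', ord', ?_, ?_, ?_, inv.bpi, ?_, ?_, ?_, ?_⟩
    · intro i
      simp only [hs']
      split_ifs with hc
      · rcases ht with ht | ht <;> rcases inv.sgn i with h1 | h1 <;> rw [ht, h1] <;> simp
      · exact inv.sgn i
    · intro g hg
      rcases (memQ' g).mp hg with rfl | rfl | hg
      · rw [c1, c2]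
      · rw [hpp, c1, c2]
      · simp only [hcl', inv.clq g hg]
    · intro g hg; exact (memQ' g).mpr (Or.inr (Or.inr (inv.bq g hg)))
    · intro g hg hgB
      rcases (memQ' g).mp hg with rfl | rfl | hg
      · exact satnew
      · rw [hpp, add_comm, abs_sub_comm]; exact satnew
      · have h0 := inv.sat g hg hgB
        simp only [hs', inv.clq g hg]
        split_ifs with hc
        · have : t * s g.1 * w g + t * s (p g).1 * w (p g) =
              t * (s g.1 * w g + s (p g).1 * w (p g)) := by ring
          rw [this, abs_mul]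
          rcases ht with ht | ht <;> rw [ht] <;> simpa using h0
        · exact h0
    · intro c
      by_cases hc1 : c = cl (p h).1
      · have : (univ.filter (fun g : I × Bool =>
            g ∉ insert h (insert (p h) Q) ∧ cl' g.1 = c)) = ∅ := by
          rw [Finset.filter_eq_empty_iff]
          intro g _ hg
          have := hg.2
          simp only [hcl'] at this
          split_ifs at this with hcc
          · exact hne (this.trans hc1)
          · exact hcc (this.trans hc1)
        rw [this]; simp
      · by_cases hc2 : c = cl h.1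
        · have hsub : (univ.filter (fun g : I × Bool =>
              g ∉ insert h (insert (p h) Q) ∧ cl' g.1 = c)) ⊆
              ((univ.filter (fun g : I × Bool => g ∉ Q ∧ cl g.1 = cl h.1)).erase h) ∪
              ((univ.filter (fun g : I × Bool => g ∉ Q ∧ cl g.1 = cl (p h).1)).erase (p h)) := by
            intro g hg
            simp only [Finset.mem_filter, Finset.mem_univ, true_and] at hg
            obtain ⟨hg1, hg2⟩ := hg
            have hg1' := (memh g).mp hg1
            simp only [hcl'] at hg2
            rw [Finset.mem_union, Finset.mem_erase, Finset.mem_erase]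
            simp only [Finset.mem_filter, Finset.mem_univ, true_and]
            split_ifs at hg2 with hcc
            · right; exact ⟨hg1'.2.1, hg1'.2.2, hcc⟩
            · left; exact ⟨hg1'.1, hg1'.2.2, hg2.trans hc2⟩
          have k1 : ((univ.filter (fun g : I × Bool => g ∉ Q ∧ cl g.1 = cl h.1)).erase h).card
              ≤ 1 := by
            rw [Finset.card_erase_of_mem (by simp [hQ])]
            have := inv.cnt (cl h.1)
            omega
          have k2 : ((univ.filter (fun g : I × Bool =>
              g ∉ Q ∧ cl g.1 = cl (p h).1)).erase (p h)).card ≤ 1 := by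
            rw [Finset.card_erase_of_mem (by simp [hpQ])]
            have := inv.cnt (cl (p h).1)
            omega
          have := Finset.card_le_card hsub
          have := Finset.card_union_le
            ((univ.filter (fun g : I × Bool => g ∉ Q ∧ cl g.1 = cl h.1)).erase h)
            ((univ.filter (fun g : I × Bool => g ∉ Q ∧ cl g.1 = cl (p h).1)).erase (p h))
          omega
        · refine le_trans (Finset.card_le_card ?_) (inv.cnt c)
          intro g hg
          simp only [Finset.mem_filter, Finset.mem_univ, true_and] at hg ⊢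
          refine ⟨((memh g).mp hg.1).2.2, ?_⟩
          have := hg.2
          simp only [hcl'] at this
          split_ifs at this with hcc
          · exact absurd this.symm hc2
          · exact this
    · intro b hb g hg
      rw [clB b hb] at hg
      simp only [hcl'] at hg
      split_ifs at hg with hcc
      · exact absurd hg.symm (oldB b hb).1
      · have := inv.brk b hb g hg
        exact ⟨(memQ' g).mpr (Or.inr (Or.inr this.1)), this.2⟩
    · intro b hb b' hb' hbb
      rw [clB b hb, clB b' hb'] at hbb
      exact inv.uni b hb b' hb' hbb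

theorem exists_inv {I : Type*} [Fintype I] [DecidableEq I] (w : I × Bool → ℝ)
    (p : I × Bool → I × Bool) (hpp : ∀ h, p (p h) = h) :
    ∃ Q B cl s, Inv w p Q B cl s ∧ ∀ h, p h ≠ h → h ∈ Q := by
  have main : ∀ k : ℕ, ∀ (Q B : Finset (I × Bool)) (cl : I → I) (s : I → ℝ),
      Inv w p Q B cl s → (univ.filter (fun h : I × Bool => p h ≠ h ∧ h ∉ Q)).card = k →
      ∃ Q B cl s, Inv w p Q B cl s ∧ ∀ h, p h ≠ h → h ∈ Q := by
    intro k
    induction' k using Nat.strong_induction_on with k ih
    intro Q B cl s inv hk
    by_cases hemp : (univ.filter (fun h : I × Bool => p h ≠ h ∧ h ∉ Q)).Nonempty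
    · obtain ⟨h, hh, hmax⟩ := Finset.exists_max_image _ (lo w p) hemp
      simp only [Finset.mem_filter, Finset.mem_univ, true_and] at hh hmax
      obtain ⟨B', cl', s', inv'⟩ := Inv.step w p hpp Q B cl s inv h hh.1 hh.2
        (fun h' h1 h2 => hmax h' ⟨h1, h2⟩)
      refine ih _ ?_ _ _ _ _ inv' rfl
      rw [← hk]
      apply Finset.card_lt_card
      rw [Finset.ssubset_iff_of_subset]
      · refine ⟨h, by simp [hh.1, hh.2], by simp⟩
      · intro g hg
        simp only [Finset.mem_filter, Finset.mem_univ, true_and, Finset.mem_insert, not_or]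
          at hg ⊢
        exact ⟨hg.1, hg.2.2.2⟩
    · refine ⟨Q, B, cl, s, inv, ?_⟩
      intro h hnf
      by_contra hc
      exact hemp ⟨h, by simp [hnf, hc]⟩
  exact main _ _ _ _ _ (Inv.start w p) rfl

end Pool.Agent.KomH11
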