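import Pool.Agent.LibKomH11.Phase1

set_option autoImplicit false

namespace Pool.Agent.KomH11

open Finset

/-- Half of the interval length of a pair, or the full weight of an unpaired element. -/
noncomputable def cost {H : Type*} [DecidableEq H] (w : H → ℝ) (p : H → H) (h : H) : ℝ :=
  if p h = h then |w h| else |(|w h| - |w (p h)|)| / 2

theorem abs_sum_le_cost {H : Type*} [DecidableEq H] (p : H → H) (k c : H → ℝ) (T : Finset H)
    (hp : ∀ h ∈ T, p h ∈ T) (hinv : ∀ h ∈ T, p (p h) = h)
    (hsat : ∀ h ∈ T, |k h + k (p h)| ≤ 2 * c h) :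
    |∑ h ∈ T, k h| ≤ ∑ h ∈ T, c h := by
  have hperm : ∑ h ∈ T, k (p h) = ∑ h ∈ T, k h := by
    refine Finset.sum_nbij' p p hp hp hinv hinv ?_
    intro h hh
    rfl
  have e : ∑ h ∈ T, k h = ∑ h ∈ T, (k h + k (p h)) / 2 := by
    rw [← Finset.sum_div, Finset.sum_add_distrib, hperm]; ring
  rw [e]
  refine (Finset.abs_sum_le_sum_abs _ _).trans (Finset.sum_le_sum ?_)
  intro h hh
  rw [abs_div, abs_of_pos (by norm_num : (0:ℝ) < 2)]
  have := hsat h hh
  linarith

section

variable {I V : Type*} [Fintype I] [DecidableEq I] [DecidableEq V]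

/-- Contribution of a class at a vertex. -/
noncomputable def con (w : I × Bool → ℝ) (f : I × Bool → V) (cl : I → I) (s : I → ℝ)
    (c : I) (u : V) : ℝ :=
  ∑ h ∈ univ.filter (fun h : I × Bool => f h = u ∧ cl h.1 = c), s h.1 * w h

/-- Cost of a class at a vertex. -/
noncomputable def dd (w : I × Bool → ℝ) (p : I × Bool → I × Bool) (f : I × Bool → V)
    (cl : I → I) (c : I) (u : V) : ℝ :=
  ∑ h ∈ univ.filter (fun h : I × Bool => f h = u ∧ cl h.1 = c), cost w p h

theorem sign_abs {x y : ℝ} (hx : x = 1 ∨ x = -1) : |x * y| = |y| := by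
  rw [abs_mul]
  rcases hx with h | h <;> rw [h] <;> simp

theorem sum_dd (w : I × Bool → ℝ) (p : I × Bool → I × Bool) (f : I × Bool → V)
    (cl : I → I) (R : Finset I) (u : V) :
    ∑ c ∈ R, dd w p f cl c u =
      ∑ h ∈ univ.filter (fun h : I × Bool => f h = u ∧ cl h.1 ∈ R), cost w p h := by
  unfold dd
  rw [Finset.sum_comm' (t' := univ.filter (fun h : I × Bool => f h = u ∧ cl h.1 ∈ R))
    (s' := fun h => {cl h.1})]
  · refine Finset.sum_congr rfl ?_
    intro h _
    simp
  · intro c h
    simp only [Finset.mem_filter, Finset.mem_univ, true_and, Finset.mem_singleton]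
    constructor
    · rintro ⟨h1, h2, h3⟩
      exact ⟨h3.symm, h2, by rw [h3]; exact h1⟩
    · rintro ⟨h1, h2, h3⟩
      exact ⟨by rw [h1]; exact h3, h2, h1.symm⟩

theorem phase2 (L : ℝ) (w : I × Bool → ℝ) (hw : ∀ i, |w (i, true)| + |w (i, false)| ≤ L)
    (p : I × Bool → I × Bool) (hpp : ∀ h, p (p h) = h) (f : I × Bool → V)
    (hf : ∀ h, f (p h) = f h)
    (hdis : ∀ h h', f h' = f h → h' ≠ h → h' ≠ p h →
        max |w h| |w (p h)| ≤ min |w h'| |w (p h')| ∨
        max |w h'| |w (p h')| ≤ min |w h| |w (p h)|)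
    (Q B : Finset (I × Bool)) (cl : I → I) (s : I → ℝ) (inv : Inv w p Q B cl s)
    (hall : ∀ h, p h ≠ h → h ∈ Q) (R : Finset I) :
    ∀ y : V → ℝ, (∀ u, |y u| + ∑ c ∈ R, dd w p f cl c u ≤ L) →
      ∃ t : I → ℝ, (∀ c, t c = 1 ∨ t c = -1) ∧
        ∀ u, |y u + ∑ c ∈ R, t c * con w f cl s c u| ≤ L := by
  have clp : ∀ h, cl (p h).1 = cl h.1 := by
    intro h
    by_cases hc : p h = h
    · rw [hc]
    · exact inv.clq h (hall h hc)
  have satc : ∀ h, h ∉ B → |s h.1 * w h + s (p h).1 * w (p h)| ≤ 2 * cost w p h := by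
    intro h hB
    unfold cost
    split_ifs with hc
    · rw [hc, ← two_mul, abs_mul, sign_abs (inv.sgn h.1)]
      simp
    · have := inv.sat h (hall h hc) hB
      linarith
  -- unbroken at a vertex
  have unb : ∀ c u, (∀ b ∈ B, cl b.1 = c → f b ≠ u) → |con w f cl s c u| ≤ dd w p f cl c u := by
    intro c u hb
    refine abs_sum_le_cost p (fun h => s h.1 * w h) _ _ ?_ (fun h _ => hpp h) ?_
    · intro h hh
      simp only [Finset.mem_filter, Finset.mem_univ, true_and] at hh ⊢
      rw [hf, clp]; exact hh
    · intro h hh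
      simp only [Finset.mem_filter, Finset.mem_univ, true_and] at hh
      exact satc h (fun hc => hb h hc hh.2 hh.1)
  -- broken at a vertex
  have brk : ∀ b ∈ B, ∃ z r, con w f cl s (cl b.1) (f b) = z + r ∧
      |z| ≤ |w b| + |w (p b)| ∧
      |r| ≤ dd w p f cl (cl b.1) (f b) - |(|w b| - |w (p b)|)| := by
    intro b hb
    have hne : p b ≠ b := inv.qnf b (inv.bq b hb)
    set T := univ.filter (fun h : I × Bool => f h = f b ∧ cl h.1 = cl b.1) with hT
    have hbT : b ∈ T := by simp [hT]
    have hpbT : p b ∈ T := by simp [hT, hf, clp]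
    have hpbT' : p b ∈ T.erase b := Finset.mem_erase.mpr ⟨hne, hpbT⟩
    have split : ∀ g : I × Bool → ℝ, ∑ h ∈ T, g h =
        (g b + g (p b)) + ∑ h ∈ (T.erase b).erase (p b), g h := by
      intro g
      rw [← Finset.add_sum_erase _ _ hbT, ← Finset.add_sum_erase _ _ hpbT']
      ring
    refine ⟨s b.1 * w b + s (p b).1 * w (p b),
      ∑ h ∈ (T.erase b).erase (p b), s h.1 * w h, ?_, ?_, ?_⟩
    · unfold con
      rw [← hT, split]
    · refine (abs_add_le _ _).trans ?_
      rw [sign_abs (inv.sgn _), sign_abs (inv.sgn _)]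
    · have e1 : dd w p f cl (cl b.1) (f b) - |(|w b| - |w (p b)|)| =
          ∑ h ∈ (T.erase b).erase (p b), cost w p h := by
        unfold dd
        rw [← hT, split]
        have c1 : cost w p b = |(|w b| - |w (p b)|)| / 2 := by
          unfold cost; rw [if_neg hne]
        have c2 : cost w p (p b) = |(|w b| - |w (p b)|)| / 2 := by
          unfold cost
          rw [hpp, if_neg (fun hc => hne hc.symm), abs_sub_comm]
        rw [c1, c2]; ring
      rw [e1]
      refine abs_sum_le_cost p (fun h => s h.1 * w h) _ _ ?_ (fun h _ => hpp h) ?_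
      · intro h hh
        simp only [Finset.mem_erase, hT, Finset.mem_filter, Finset.mem_univ, true_and] at hh ⊢
        refine ⟨?_, ?_, ?_, ?_⟩
        · intro hc
          apply hh.2.1
          rw [← hpp h, hc, hpp]
        · intro hc
          apply hh.1
          rw [← hc, hpp]
        · rw [hf]; exact hh.2.2.1
        · rw [clp]; exact hh.2.2.2
      · intro h hh
        simp only [Finset.mem_erase, hT, Finset.mem_filter, Finset.mem_univ, true_and] at hh
        refine satc h (fun hc => ?_)
        rcases inv.uni b hb h hc hh.2.2.2 with h1 | h1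
        · exact hh.2.1 h1
        · exact hh.1 h1
  have hdd0 : ∀ c u, 0 ≤ dd w p f cl c u := by
    intro c u
    unfold dd
    refine Finset.sum_nonneg ?_
    intro h _
    unfold cost
    split_ifs <;> positivity
  induction' hn : R.card using Nat.strong_induction_on with n ih generalizing R
  intro y hy
  rcases R.eq_empty_or_nonempty with rfl | hR
  · refine ⟨fun _ => 1, fun _ => Or.inl rfl, ?_⟩
    intro u
    have := hy u
    simp only [Finset.sum_empty, add_zero] at this ⊢
    exact this
  -- general processing step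
  have step : ∀ c ∈ R, ∀ t0 : ℝ, (t0 = 1 ∨ t0 = -1) →
      (∀ u, |y u + t0 * con w f cl s c u| + ∑ c' ∈ R.erase c, dd w p f cl c' u ≤ L) →
      ∃ t : I → ℝ, (∀ c, t c = 1 ∨ t c = -1) ∧
        ∀ u, |y u + ∑ c ∈ R, t c * con w f cl s c u| ≤ L := by
    intro c hc t0 ht0 hstep
    obtain ⟨t, ht, htu⟩ := ih _ (by
      rw [Finset.card_erase_of_mem hc]
      have := Finset.card_pos.mpr hR
      omega) (R.erase c) rfl (fun u => y u + t0 * con w f cl s c u) hstep
    refine ⟨fun i => if i = c then t0 else t i, ?_, ?_⟩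
    · intro i
      simp only
      split_ifs
      · exact ht0
      · exact ht i
    · intro u
      have := htu u
      show |y u + ∑ c' ∈ R, (if c' = c then t0 else t c') * con w f cl s c' u| ≤ L
      rw [← Finset.add_sum_erase _ _ hc, if_pos rfl]
      have e : ∑ x ∈ R.erase c, (if x = c then t0 else t x) * con w f cl s x u =
          ∑ x ∈ R.erase c, t x * con w f cl s x u := by
        refine Finset.sum_congr rfl ?_
        intro x hx
        rw [if_neg (Finset.ne_of_mem_erase hx)]
      rw [e, ← add_assoc]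
      exact this
  have hsplit : ∀ c ∈ R, ∀ u, ∑ c' ∈ R, dd w p f cl c' u =
      dd w p f cl c u + ∑ c' ∈ R.erase c, dd w p f cl c' u := by
    intro c hc u
    exact (Finset.add_sum_erase R (fun c' => dd w p f cl c' u) hc).symm
  by_cases hun : ∃ c ∈ R, ∀ b ∈ B, cl b.1 ≠ c
  · obtain ⟨c, hc, hcb⟩ := hun
    refine step c hc 1 (Or.inl rfl) ?_
    intro u
    have h1 := unb c u (fun b hb hbc => absurd hbc (hcb b hb))
    have h2 := hy u
    rw [hsplit c hc u] at h2
    have h3 := abs_add_le (y u) (1 * con w f cl s c u)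
    rw [one_mul] at h3 ⊢
    linarith
  · push Not at hun
    -- choose the smallest broken pair
    have hBne : (B.filter (fun b => cl b.1 ∈ R)).Nonempty := by
      obtain ⟨c, hc⟩ := hR
      obtain ⟨b, hb, hbc⟩ := hun c hc
      exact ⟨b, by simp [hb, hbc, hc]⟩
    obtain ⟨b, hb, hbmin⟩ := Finset.exists_min_image _ (lo w p) hBne
    simp only [Finset.mem_filter] at hb hbmin
    obtain ⟨hbB, hbR⟩ := hb
    have hbig : ∀ h : I × Bool, cl h.1 ∈ R → h ∈ Q ∧ lo w p b ≤ |w h| := by
      intro h hh
      obtain ⟨b', hb', hbc'⟩ := hun _ hh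
      have h1 := inv.brk b' hb' h hbc'.symm
      exact ⟨h1.1, (hbmin b' ⟨hb', by rw [hbc']; exact hh⟩).trans h1.2⟩
    -- total cost at f b
    have htot : 2 * lo w p b + ∑ c ∈ R, dd w p f cl c (f b) ≤ L := by
      rw [sum_dd]
      set T := univ.filter (fun h : I × Bool => f h = f b ∧ cl h.1 ∈ R) with hT
      have memT : ∀ h, h ∈ T ↔ f h = f b ∧ cl h.1 ∈ R := by intro h; simp [hT]
      have hTne : T.Nonempty := ⟨b, (memT b).mpr ⟨rfl, hbR⟩⟩
      obtain ⟨g, hg, hgmax⟩ := Finset.exists_max_image T (fun h => |w h|) hTne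
      have hgT := (memT g).mp hg
      have hle := sum_delta_le (fun h => |w h|) p T (lo w p b) |w g|
        (fun h hh => (memT _).mpr (by rw [hf, clp]; exact (memT h).mp hh))
        (fun h _ => hpp h)
        (fun h hh h' hh' h1 h2 => hdis h h'
          (((memT h').mp hh').1.trans ((memT h).mp hh).1.symm) h1 h2)
        (fun h hh => (hbig h ((memT h).mp hh).2).2)
        (fun h hh => hgmax h hh)
        (hbig g hgT.2).2
      have hcost : ∑ h ∈ T, cost w p h = (∑ h ∈ T, |(|w h| - |w (p h)|)|) / 2 := by
        rw [Finset.sum_div]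
        refine Finset.sum_congr rfl ?_
        intro h hh
        unfold cost
        rw [if_neg (inv.qnf h (hbig h ((memT h).mp hh).2).1)]
      rw [hcost]
      have hother : lo w p b ≤ |w (g.1, !g.2)| := (hbig (g.1, !g.2) hgT.2).2
      have hnorm : |w g| + |w (g.1, !g.2)| ≤ L := by
        have := hw g.1
        rcases g with ⟨i, c⟩
        cases c
        · simp only [Bool.not_false]; linarith
        · simp only [Bool.not_true]; linarith
      have hM : |w g| + lo w p b ≤ L := by linarith
      linarith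
    obtain ⟨z, r, hzr, hz, hr⟩ := brk b hbB
    obtain ⟨t0, ht0, htabs⟩ := exists_sign (y (f b)) z
    refine step (cl b.1) hbR t0 ht0 ?_
    intro u
    have h2 := hy u
    rw [hsplit (cl b.1) hbR u] at h2
    by_cases hu : u = f b
    · subst hu
      rw [hzr]
      have e : y (f b) + t0 * (z + r) = (y (f b) + t0 * z) + t0 * r := by ring
      rw [e]
      have h3 := abs_add_le (y (f b) + t0 * z) (t0 * r)
      rw [htabs, sign_abs ht0] at h3
      rw [hsplit (cl b.1) hbR (f b)] at htot
      have hz2 : |z| ≤ 2 * lo w p b + |(|w b| - |w (p b)|)| := by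
        refine hz.trans ?_
        unfold lo
        rcases le_total |w b| |w (p b)| with h | h
        · rw [min_eq_left h, abs_of_nonpos (show |w b| - |w (p b)| ≤ 0 by linarith)]; linarith
        · rw [min_eq_right h, abs_of_nonneg (show 0 ≤ |w b| - |w (p b)| by linarith)]; linarith
      rcases le_total |y (f b)| |z| with h | h
      · rw [abs_of_nonpos (by linarith : |y (f b)| - |z| ≤ 0)] at h3
        have := abs_nonneg (y (f b))
        linarith
      · rw [abs_of_nonneg (by linarith : 0 ≤ |y (f b)| - |z|)] at h3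
        have := abs_nonneg z
        have := abs_nonneg (|w b| - |w (p b)|)
        linarith
    · have h1 := unb (cl b.1) u (by
        intro b' hb' hbc hfu
        rcases inv.uni b hbB b' hb' hbc with h | h
        · exact hu (by rw [← hfu, h])
        · exact hu (by rw [← hfu, h, hf]))
      have h3 := abs_add_le (y u) (t0 * con w f cl s (cl b.1) u)
      rw [sign_abs ht0] at h3
      linarith

end

/-- Signs for weighted half-edges: every vertex sum is at most the largest total weight of
one item. -/
theorem halfedge_signs {I V : Type*} [Fintype I] [DecidableEq I] [DecidableEq V]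
    (L : ℝ) (hL : 0 ≤ L) (w : I × Bool → ℝ) (hw : ∀ i, |w (i, true)| + |w (i, false)| ≤ L)
    (f : I × Bool → V) :
    ∃ e : I → ℝ, (∀ i, e i = 1 ∨ e i = -1) ∧
      ∀ u, |∑ h ∈ univ.filter (fun h : I × Bool => f h = u), e h.1 * w h| ≤ L := by
  classical
  choose q q1 q2 q3 q4 q5 using fun u : V =>
    exists_pairing (fun h : I × Bool => |w h|) (univ.filter (fun h : I × Bool => f h = u))
  simp only [Finset.mem_filter, Finset.mem_univ, true_and] at q1 q2 q3 q4 q5
  set p : I × Bool → I × Bool := fun h => q (f h) h with hp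
  have hf : ∀ h, f (p h) = f h := fun h => q1 (f h) h rfl
  have hpu : ∀ u h, f h = u → p h = q u h := by
    rintro u h rfl; rfl
  have hpp : ∀ h, p (p h) = h := by
    intro h
    rw [hpu (f h) (p h) (hf h)]
    exact q2 (f h) h rfl
  have hdis : ∀ h h', f h' = f h → h' ≠ h → h' ≠ p h →
        max |w h| |w (p h)| ≤ min |w h'| |w (p h')| ∨
        max |w h'| |w (p h')| ≤ min |w h| |w (p h)| := by
    intro h h' hff h1 h2
    have := q3 (f h) h rfl h' hff h1 h2
    rw [hpu (f h) h' hff]
    exact this
  have hw1 : ∀ h, |w h| ≤ L := by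
    rintro ⟨i, c⟩
    have := hw i
    have h1 := abs_nonneg (w (i, true))
    have h2 := abs_nonneg (w (i, false))
    cases c <;> linarith
  obtain ⟨Q, B, cl, s, inv, hall⟩ := exists_inv w p hpp
  -- initial cost
  have hinit : ∀ u, |(0 : ℝ)| + ∑ c, dd w p f cl c u ≤ L := by
    intro u
    rw [abs_zero, zero_add, sum_dd]
    simp only [Finset.mem_univ, and_true]
    set T := univ.filter (fun h : I × Bool => f h = u) with hT
    have memT : ∀ h, h ∈ T ↔ f h = u := by intro h; simp [hT]
    set T1 := T.filter (fun h => p h = h) with hT1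
    set T2 := T.filter (fun h => ¬ p h = h) with hT2
    have hsum : ∑ h ∈ T, cost w p h = ∑ h ∈ T1, cost w p h + ∑ h ∈ T2, cost w p h := by
      rw [hT1, hT2, Finset.sum_filter_add_sum_filter_not]
    have hT2sum : ∀ m : ℝ, (∀ h ∈ T2, m ≤ |w h|) → m ≤ L → ∑ h ∈ T2, cost w p h ≤ L - m := by
      intro m hm hm1
      have hle := sum_delta_le (fun h => |w h|) p T2 m L
        (fun h hh => by
          simp only [hT2, Finset.mem_filter, memT] at hh ⊢
          exact ⟨by rw [hf]; exact hh.1, by rw [hpp]; exact fun hc => hh.2 hc.symm⟩)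
        (fun h _ => hpp h)
        (fun h hh h' hh' h1 h2 => by
          simp only [hT2, Finset.mem_filter, memT] at hh hh'
          exact hdis h h' (hh'.1.trans hh.1.symm) h1 h2)
        hm (fun h _ => hw1 h) hm1
      have hcost : ∑ h ∈ T2, cost w p h = (∑ h ∈ T2, |(|w h| - |w (p h)|)|) / 2 := by
        rw [Finset.sum_div]
        refine Finset.sum_congr rfl ?_
        intro h hh
        unfold cost
        rw [if_neg (Finset.mem_filter.mp hh).2]
      rw [hcost]
      linarith
    rcases T1.eq_empty_or_nonempty with h0 | ⟨g, hg⟩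
    · rw [hsum, h0, Finset.sum_empty, zero_add]
      have := hT2sum 0 (fun h _ => abs_nonneg _) hL
      linarith
    · have hg' := Finset.mem_filter.mp hg
      have hgu := (memT g).mp hg'.1
      have hT1g : T1 = {g} := by
        rw [Finset.eq_singleton_iff_unique_mem]
        refine ⟨hg, ?_⟩
        intro h hh
        have hh' := Finset.mem_filter.mp hh
        have hhu := (memT h).mp hh'.1
        exact q5 u h hhu g hgu (by rw [← hpu u h hhu]; exact hh'.2)
          (by rw [← hpu u g hgu]; exact hg'.2)
      have hmin : ∀ h ∈ T2, |w g| ≤ |w h| := by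
        intro h hh
        have hh' := Finset.mem_filter.mp hh
        exact q4 u g hgu (by rw [← hpu u g hgu]; exact hg'.2) h ((memT h).mp hh'.1)
      rw [hsum, hT1g, Finset.sum_singleton]
      have := hT2sum |w g| hmin (hw1 g)
      have hcg : cost w p g = |w g| := by unfold cost; rw [if_pos hg'.2]
      rw [hcg]
      linarith
  obtain ⟨t, ht, htu⟩ := phase2 L w hw p hpp f hf hdis Q B cl s inv hall univ
    (fun _ => 0) hinit
  refine ⟨fun i => t (cl i) * s i, ?_, ?_⟩
  · intro i
    simp only
    rcases ht (cl i) with h1 | h1 <;> rcases inv.sgn i with h2 | h2 <;> rw [h1, h2] <;> simp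
  · intro u
    have := htu u
    rw [zero_add] at this
    have e : ∑ c, t c * con w f cl s c u =
        ∑ h ∈ univ.filter (fun h : I × Bool => f h = u), t (cl h.1) * s h.1 * w h := by
      unfold con
      simp only [Finset.mul_sum]
      rw [Finset.sum_comm' (t' := univ.filter (fun h : I × Bool => f h = u))
        (s' := fun h => {cl h.1})]
      · refine Finset.sum_congr rfl ?_
        intro h _
        simp [mul_assoc]
      · intro c h
        simp only [Finset.mem_filter, Finset.mem_univ, true_and, Finset.mem_singleton]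
        constructor
        · rintro ⟨h2, h3⟩
          exact ⟨h3.symm, h2⟩
        · rintro ⟨h1, h2⟩
          exact ⟨h2, h1.symm⟩
    rw [← e]
    exact this

end Pool.Agent.KomH11
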