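import Pool.Agent.LibKomH11.Counting

set_option autoImplicit false

namespace Pool.Agent.KomH11

open Finset

section Hoeffding

variable {I : Type*} [DecidableEq I]

/-- Signs attached to a subset. -/
noncomputable def sg (A : Finset I) (i : I) : ℝ := if i ∈ A then 1 else -1

theorem mgf_eq (S : Finset I) (a : I → ℝ) (t : ℝ) :
    ∑ A ∈ S.powerset, Real.exp (t * ∑ i ∈ S, sg A i * a i) =
      ∏ i ∈ S, (Real.exp (t * a i) + Real.exp (-(t * a i))) := by
  rw [Finset.prod_add]
  refine Finset.sum_congr rfl ?_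
  intro A hA
  rw [Finset.mem_powerset] at hA
  rw [← Real.exp_sum, ← Real.exp_sum, ← Real.exp_add]
  congr 1
  rw [← Finset.sum_sdiff hA, mul_add, add_comm]
  congr 1
  · rw [Finset.mul_sum]
    refine Finset.sum_congr rfl ?_
    intro i hi
    unfold sg; rw [if_pos hi, one_mul]
  · rw [Finset.mul_sum]
    refine Finset.sum_congr rfl ?_
    intro i hi
    unfold sg; rw [if_neg (Finset.mem_sdiff.mp hi).2]; ring

theorem mgf_le (S : Finset I) (a : I → ℝ) (t : ℝ) :
    ∑ A ∈ S.powerset, Real.exp (t * ∑ i ∈ S, sg A i * a i) ≤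
      2 ^ S.card * Real.exp (t ^ 2 * (∑ i ∈ S, a i ^ 2) / 2) := by
  rw [mgf_eq]
  have h : ∀ i ∈ S, Real.exp (t * a i) + Real.exp (-(t * a i)) ≤
      2 * Real.exp ((t * a i) ^ 2 / 2) := by
    intro i _
    have := Real.cosh_le_exp_half_sq (t * a i)
    rw [Real.cosh_eq] at this
    linarith
  refine (Finset.prod_le_prod (fun i _ => by positivity) h).trans (le_of_eq ?_)
  rw [Finset.prod_mul_distrib, Finset.prod_const, ← Real.exp_sum, ← Finset.sum_div]
  congr 2
  congr 1
  rw [Finset.mul_sum]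
  refine Finset.sum_congr rfl ?_
  intro i _
  ring

theorem hoeffding_card (S : Finset I) (a : I → ℝ) (q lam : ℝ) (hq : 0 < q)
    (hs : ∑ i ∈ S, a i ^ 2 ≤ q) (hl : 0 ≤ lam) :
    ((S.powerset.filter (fun A => lam < |∑ i ∈ S, sg A i * a i|)).card : ℝ) ≤
      2 * (2 ^ S.card * Real.exp (-(lam ^ 2 / (2 * q)))) := by
  set t := lam / q with ht
  have ht0 : 0 ≤ t := div_nonneg hl hq.le
  have key : ((S.powerset.filter (fun A => lam < |∑ i ∈ S, sg A i * a i|)).card : ℝ) *
      Real.exp (t * lam) ≤ 2 * (2 ^ S.card * Real.exp (t ^ 2 * q / 2)) := by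
    have h1 : ((S.powerset.filter (fun A => lam < |∑ i ∈ S, sg A i * a i|)).card : ℝ) *
        Real.exp (t * lam) ≤ ∑ A ∈ S.powerset,
          (Real.exp (t * ∑ i ∈ S, sg A i * a i) + Real.exp (-t * ∑ i ∈ S, sg A i * a i)) := by
      rw [← nsmul_eq_mul, ← Finset.sum_const]
      refine le_trans (Finset.sum_le_sum ?_) (Finset.sum_le_sum_of_subset_of_nonneg
        (Finset.filter_subset _ _) (fun A _ _ => by positivity))
      intro A hA
      have hA2 := (Finset.mem_filter.mp hA).2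
      rcases le_total 0 (∑ i ∈ S, sg A i * a i) with h | h
      · rw [abs_of_nonneg h] at hA2
        have h3 : Real.exp (t * lam) ≤ Real.exp (t * ∑ i ∈ S, sg A i * a i) :=
          Real.exp_le_exp.mpr (mul_le_mul_of_nonneg_left hA2.le ht0)
        have h4 := Real.exp_pos (-t * ∑ i ∈ S, sg A i * a i)
        linarith
      · rw [abs_of_nonpos h] at hA2
        have h3 : Real.exp (t * lam) ≤ Real.exp (-t * ∑ i ∈ S, sg A i * a i) := by
          apply Real.exp_le_exp.mpr
          nlinarith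
        have h4 := Real.exp_pos (t * ∑ i ∈ S, sg A i * a i)
        linarith
    refine h1.trans ?_
    rw [Finset.sum_add_distrib]
    have h2 := mgf_le S a t
    have h3 := mgf_le S a (-t)
    have h4 : Real.exp (t ^ 2 * (∑ i ∈ S, a i ^ 2) / 2) ≤ Real.exp (t ^ 2 * q / 2) := by
      apply Real.exp_le_exp.mpr
      have := mul_le_mul_of_nonneg_left hs (sq_nonneg t)
      linarith
    have h5 : (0 : ℝ) < 2 ^ S.card := by positivity
    have h6 := mul_le_mul_of_nonneg_left h4 h5.le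
    rw [neg_sq] at h3
    linarith
  have hexp : Real.exp (-(lam ^ 2 / (2 * q))) * Real.exp (t * lam) =
      Real.exp (t ^ 2 * q / 2) := by
    rw [← Real.exp_add]
    congr 1
    rw [ht]
    field_simp
    ring
  have hpos := Real.exp_pos (t * lam)
  refine le_of_mul_le_mul_right ?_ hpos
  calc _ ≤ 2 * (2 ^ S.card * Real.exp (t ^ 2 * q / 2)) := key
    _ = _ := by rw [← hexp]; ring

end Hoeffding

theorem sum_half (N : ℕ) : ∑ s ∈ range N, ((1 : ℝ) / 2) ^ s ≤ 2 := by
  have : ∑ s ∈ range N, ((1 : ℝ) / 2) ^ s = 2 - 2 * (1 / 2) ^ N := by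
    induction' N with N ih
    · simp
    · rw [Finset.sum_range_succ, ih, pow_succ]; ring
  rw [this]
  have : (0 : ℝ) < (1 / 2) ^ N := by positivity
  linarith

theorem sum_half' (N : ℕ) : ∑ s ∈ range N, ((s : ℝ) + 1) * ((1 : ℝ) / 2) ^ s ≤ 4 := by
  have : ∑ s ∈ range N, ((s : ℝ) + 1) * ((1 : ℝ) / 2) ^ s =
      4 - (2 * N + 4) * (1 / 2) ^ N := by
    induction' N with N ih
    · simp
    · rw [Finset.sum_range_succ, ih, pow_succ]; push_cast; ring
  rw [this]
  have : (0 : ℝ) ≤ (2 * N + 4) * (1 / 2) ^ N := by positivity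
  linarith

theorem relative (δ : ℝ) (hδ : 0 < δ) (hδ1 : δ ≤ 1) (n d : ℕ) (v : Fin n → Fin d → ℝ)
    (hv : ∀ i, ∑ j, (v i j) ^ 2 ≤ 1) :
    ∃ ε : Fin n → ℝ, (∀ i, ε i = 1 ∨ ε i = -1) ∧
      ∀ j : Fin d, |∑ i, ε i * v i j| ≤
        δ * ∑ i, |v i j| + Real.sqrt (32 * Real.log (2 / δ) * ∑ i, |v i j|) := by
  classical
  set L := Real.log (2 / δ) with hL
  have hlog2 : Real.log 2 ≤ L := by
    apply Real.log_le_log (by norm_num)
    rw [le_div_iff₀ hδ]; linarith
  have hlog2pos : 0 < Real.log 2 := Real.log_pos (by norm_num)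
  have hLpos : 0 < L := lt_of_lt_of_le hlog2pos hlog2
  have hv1 : ∀ i j, |v i j| ≤ 1 := by
    intro i j
    have h1 : (v i j) ^ 2 ≤ 1 :=
      (Finset.single_le_sum (f := fun j => (v i j) ^ 2) (fun _ _ => sq_nonneg _)
        (Finset.mem_univ j)).trans (hv i)
    rw [← sq_abs] at h1
    nlinarith [abs_nonneg (v i j)]
  -- scales
  have hscale : ∀ i j, ∃ s : ℕ, v i j ≠ 0 →
      |v i j| ≤ (1 / 2) ^ s ∧ (1 / 2) ^ (s + 1) < |v i j| := by
    intro i j
    by_cases h0 : v i j = 0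
    · exact ⟨0, fun h => absurd h0 h⟩
    · have hp : 0 < |v i j| := abs_pos.mpr h0
      obtain ⟨s, hs1, hs2⟩ := exists_nat_pow_near (x := 1 / |v i j|) (y := (2 : ℝ))
        (by rw [le_div_iff₀ hp]; linarith [hv1 i j]) (by norm_num)
      refine ⟨s, fun _ => ⟨?_, ?_⟩⟩
      · rw [one_div, inv_pow, le_inv_comm₀ hp (by positivity), ← one_div]
        exact hs1
      · rw [one_div, inv_pow, inv_lt_comm₀ (by positivity) hp, ← one_div]
        exact hs2
  choose sc hsc using hscale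
  set N : ℕ := (univ.sup (fun x : Fin n × Fin d => sc x.1 x.2)) + 1 with hN
  have hscN : ∀ i j, sc i j < N := by
    intro i j
    rw [hN]
    have : sc i j ≤ univ.sup (fun x : Fin n × Fin d => sc x.1 x.2) :=
      Finset.le_sup (f := fun x : Fin n × Fin d => sc x.1 x.2) (Finset.mem_univ (i, j))
    omega
  set S : Fin d × ℕ → Finset (Fin n) :=
    fun e => univ.filter (fun i => v i e.1 ≠ 0 ∧ sc i e.1 = e.2) with hS
  have memS : ∀ e i, i ∈ S e ↔ v i e.1 ≠ 0 ∧ sc i e.1 = e.2 := by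
    intro e i; simp [hS]
  set R : Fin d × ℕ → ℝ := fun e => ∑ i ∈ S e, |v i e.1| with hR
  have hR0 : ∀ e, 0 ≤ R e := fun e => Finset.sum_nonneg (fun _ _ => abs_nonneg _)
  set c : ℕ → ℝ := fun s => 4 * ((s : ℝ) + 1) * Real.log 2 + 8 * L with hc
  have hc0 : ∀ s, 0 ≤ c s := by intro s; simp only [hc]; positivity
  set lam : Fin d × ℕ → ℝ := fun e => δ * R e + Real.sqrt (c e.2 * (1 / 2) ^ e.2 * R e) with hlam
  have hlam0 : ∀ e, 0 ≤ lam e := by
    intro e
    exact add_nonneg (mul_nonneg hδ.le (hR0 e)) (Real.sqrt_nonneg _)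
  set Bad : Fin d × ℕ → Finset (Finset (Fin n)) := fun e =>
    (S e).powerset.filter (fun A => lam e < |∑ i ∈ S e, sg A i * v i e.1|) with hBad
  set F : Finset (Fin d × ℕ) := (univ ×ˢ range N).filter (fun e => (S e).Nonempty) with hF
  set b : ℝ := 2 * Real.exp (-(δ ^ 2 / 4)) with hb
  have hbpos : 0 < b := by positivity
  have hb2 : b ≤ 2 := by
    rw [hb]
    have : Real.exp (-(δ ^ 2 / 4)) ≤ 1 := Real.exp_le_one_iff.mpr (by nlinarith)
    linarith
  have hbgap : δ ^ 4 / 4 ≤ 2 - b := by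
    have h1 : 1 + δ ^ 2 / 4 ≤ Real.exp (δ ^ 2 / 4) := by
      have := Real.add_one_le_exp (δ ^ 2 / 4); linarith
    have h2 : Real.exp (-(δ ^ 2 / 4)) ≤ 1 / (1 + δ ^ 2 / 4) := by
      rw [Real.exp_neg, ← one_div]
      exact one_div_le_one_div_of_le (by positivity) h1
    have h3 : 1 / (1 + δ ^ 2 / 4) ≤ 1 - δ ^ 2 / 8 := by
      rw [div_le_iff₀ (by positivity)]
      have : δ ^ 2 ≤ 1 := by nlinarith
      nlinarith [sq_nonneg δ]
    have h4 : δ ^ 4 ≤ δ ^ 2 := pow_le_pow_of_le_one hδ.le hδ1 (by norm_num)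
    rw [hb]
    linarith
  -- weight of one event
  have hweight : ∀ e ∈ F, ∀ x ∈ S e,
      ((Bad e).card : ℝ) * (b⁻¹) ^ ((S e).card - 1) ≤ δ ^ 4 / 4 * (v x e.1) ^ 2 := by
    intro e he x hx
    have hk : 1 ≤ (S e).card := Finset.card_pos.mpr ⟨x, hx⟩
    have hlow : ∀ i ∈ S e, (1 / 2 : ℝ) ^ (e.2 + 1) < |v i e.1| := by
      intro i hi
      have := (memS e i).mp hi
      have h2 := (hsc i e.1 this.1).2
      rw [this.2] at h2; exact h2
    have hhigh : ∀ i ∈ S e, |v i e.1| ≤ (1 / 2 : ℝ) ^ e.2 := by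
      intro i hi
      have := (memS e i).mp hi
      have h2 := (hsc i e.1 this.1).1
      rw [this.2] at h2; exact h2
    have hRk : ((S e).card : ℝ) * (1 / 2) ^ (e.2 + 1) ≤ R e := by
      rw [hR, ← nsmul_eq_mul, ← Finset.sum_const]
      exact Finset.sum_le_sum (fun i hi => (hlow i hi).le)
    have hRpos : 0 < R e := by
      refine lt_of_lt_of_le ?_ hRk
      have : (0 : ℝ) < (S e).card := by exact_mod_cast hk
      positivity
    have hq : 0 < (1 / 2 : ℝ) ^ e.2 * R e := by positivity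
    have hsq : ∑ i ∈ S e, (v i e.1) ^ 2 ≤ (1 / 2 : ℝ) ^ e.2 * R e := by
      rw [hR, Finset.mul_sum]
      refine Finset.sum_le_sum ?_
      intro i hi
      rw [← sq_abs, sq]
      exact mul_le_mul_of_nonneg_right (hhigh i hi) (abs_nonneg _)
    have hH := hoeffding_card (S e) (fun i => v i e.1) _ (lam e) hq hsq (hlam0 e)
    have hexpo : δ ^ 2 / 4 * (S e).card + c e.2 / 2 ≤
        lam e ^ 2 / (2 * ((1 / 2 : ℝ) ^ e.2 * R e)) := by
      rw [le_div_iff₀ (by positivity)]
      have h1 : δ ^ 2 * R e ^ 2 + c e.2 * (1 / 2) ^ e.2 * R e ≤ lam e ^ 2 := by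
        have hs0 : 0 ≤ Real.sqrt (c e.2 * (1 / 2) ^ e.2 * R e) := Real.sqrt_nonneg _
        have hs1 : Real.sqrt (c e.2 * (1 / 2) ^ e.2 * R e) ^ 2 = c e.2 * (1 / 2) ^ e.2 * R e :=
          Real.sq_sqrt (by have := hc0 e.2; positivity)
        have : lam e ^ 2 = δ ^ 2 * R e ^ 2 +
            2 * (δ * R e) * Real.sqrt (c e.2 * (1 / 2) ^ e.2 * R e) +
            Real.sqrt (c e.2 * (1 / 2) ^ e.2 * R e) ^ 2 := by
          simp only [hlam]; ring
        rw [this, hs1]
        have : 0 ≤ 2 * (δ * R e) * Real.sqrt (c e.2 * (1 / 2) ^ e.2 * R e) := by positivity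
        linarith
      have h2 : δ ^ 2 / 4 * (S e).card * (2 * ((1 / 2 : ℝ) ^ e.2 * R e)) ≤ δ ^ 2 * R e ^ 2 := by
        have h3 : ((S e).card : ℝ) * (1 / 2) ^ e.2 ≤ 2 * R e := by
          have : (1 / 2 : ℝ) ^ (e.2 + 1) = (1 / 2) ^ e.2 / 2 := by rw [pow_succ]; ring
          rw [this] at hRk; linarith
        have h4 : 0 ≤ δ ^ 2 * R e := by positivity
        nlinarith [mul_le_mul_of_nonneg_left h3 h4]
      nlinarith
    have hbad : ((Bad e).card : ℝ) ≤
        2 * (b ^ (S e).card * Real.exp (-(c e.2 / 2))) := by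
      refine hH.trans ?_
      have h1 : Real.exp (-(lam e ^ 2 / (2 * ((1 / 2 : ℝ) ^ e.2 * R e)))) ≤
          Real.exp (-(δ ^ 2 / 4)) ^ (S e).card * Real.exp (-(c e.2 / 2)) := by
        rw [← Real.exp_nat_mul, ← Real.exp_add]
        apply Real.exp_le_exp.mpr
        linarith
      rw [hb, mul_pow]
      have h2 : (0 : ℝ) < 2 ^ (S e).card := by positivity
      have := mul_le_mul_of_nonneg_left h1 h2.le
      linarith
    have hexpc : Real.exp (-(c e.2 / 2)) = ((1 / 2 : ℝ) ^ (e.2 + 1)) ^ 2 * (δ / 2) ^ 4 := by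
      have h1 : Real.exp (-(c e.2 / 2)) =
          Real.exp (-(Real.log 2)) ^ (2 * (e.2 + 1)) * Real.exp (-L) ^ 4 := by
        rw [← Real.exp_nat_mul, ← Real.exp_nat_mul, ← Real.exp_add]
        congr 1
        simp only [hc]
        push_cast
        ring
      rw [h1, Real.exp_neg, Real.exp_log (by norm_num), Real.exp_neg, hL,
        Real.exp_log (by positivity), ← pow_mul, mul_comm (e.2 + 1) 2]
      congr 1
      · norm_num
      · rw [inv_div]
    have hbk : b ^ (S e).card * (b⁻¹) ^ ((S e).card - 1) = b := by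
      obtain ⟨k, hk'⟩ : ∃ k, (S e).card = k + 1 := ⟨(S e).card - 1, by omega⟩
      rw [hk', Nat.add_sub_cancel, pow_succ, inv_pow]
      field_simp
    have hvx : ((1 / 2 : ℝ) ^ (e.2 + 1)) ^ 2 ≤ (v x e.1) ^ 2 := by
      rw [← sq_abs (v x e.1)]
      exact pow_le_pow_left₀ (by positivity) (hlow x hx).le 2
    calc ((Bad e).card : ℝ) * (b⁻¹) ^ ((S e).card - 1)
        ≤ 2 * (b ^ (S e).card * Real.exp (-(c e.2 / 2))) * (b⁻¹) ^ ((S e).card - 1) :=
          mul_le_mul_of_nonneg_right hbad (by positivity)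
      _ = 2 * (b ^ (S e).card * (b⁻¹) ^ ((S e).card - 1)) * Real.exp (-(c e.2 / 2)) := by ring
      _ = 2 * b * Real.exp (-(c e.2 / 2)) := by rw [hbk]
      _ = 2 * b * (δ / 2) ^ 4 * ((1 / 2 : ℝ) ^ (e.2 + 1)) ^ 2 := by rw [hexpc]; ring
      _ ≤ 2 * 2 * (δ / 2) ^ 4 * (v x e.1) ^ 2 := by
          apply mul_le_mul _ hvx (by positivity) (by positivity)
          apply mul_le_mul_of_nonneg_right _ (by positivity)
          linarith
      _ = δ ^ 4 / 4 * (v x e.1) ^ 2 := by ring
  have hsum : ∀ x : Fin n, ∑ e ∈ F.filter (fun e => x ∈ S e),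
      ((Bad e).card : ℝ) * (b⁻¹) ^ ((S e).card - 1) ≤ 2 - b := by
    intro x
    have h1 : ∑ e ∈ F.filter (fun e => x ∈ S e),
        ((Bad e).card : ℝ) * (b⁻¹) ^ ((S e).card - 1) ≤
        ∑ e ∈ F.filter (fun e => x ∈ S e), δ ^ 4 / 4 * (v x e.1) ^ 2 := by
      refine Finset.sum_le_sum ?_
      intro e he
      rw [Finset.mem_filter] at he
      exact hweight e he.1 x he.2
    have hinj : Set.InjOn Prod.fst ((F.filter (fun e => x ∈ S e) : Finset (Fin d × ℕ)) :
        Set (Fin d × ℕ)) := by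
      intro e he e' he' hee
      rw [Finset.mem_coe, Finset.mem_filter] at he he'
      have a1 := ((memS e x).mp he.2).2
      have a2 := ((memS e' x).mp he'.2).2
      refine Prod.ext hee ?_
      rw [← a1, ← a2, hee]
    have h2 : ∑ e ∈ F.filter (fun e => x ∈ S e), δ ^ 4 / 4 * (v x e.1) ^ 2 ≤
        δ ^ 4 / 4 * ∑ j, (v x j) ^ 2 := by
      rw [← Finset.sum_image (f := fun j => δ ^ 4 / 4 * (v x j) ^ 2) hinj, Finset.mul_sum]
      exact Finset.sum_le_sum_of_subset_of_nonneg (Finset.subset_univ _)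
        (fun _ _ _ => by positivity)
    have h3 : δ ^ 4 / 4 * ∑ j, (v x j) ^ 2 ≤ δ ^ 4 / 4 * 1 :=
      mul_le_mul_of_nonneg_left (hv x) (by positivity)
    linarith
  obtain ⟨A, hA⟩ := exists_good S Bad F (fun e he => (Finset.mem_filter.mp he).2) b hbpos hsum
  refine ⟨fun i => sg A i, ?_, ?_⟩
  · intro i
    by_cases hi : i ∈ A
    · left; simp [sg, hi]
    · right; simp [sg, hi]
  · intro j
    have hev : ∀ s ∈ range N, |∑ i ∈ S (j, s), sg A i * v i j| ≤ lam (j, s) := by
      intro s hs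
      by_cases hne : (S (j, s)).Nonempty
      · have hmem : (j, s) ∈ F := by
          rw [hF, Finset.mem_filter]
          exact ⟨Finset.mem_product.mpr ⟨Finset.mem_univ _, hs⟩, hne⟩
        have h1 := hA _ hmem
        rw [hBad, Finset.mem_filter, not_and] at h1
        have h2 := not_lt.mp (h1 (Finset.mem_powerset.mpr Finset.inter_subset_right))
        have h3 : ∑ i ∈ S (j, s), sg (A ∩ S (j, s)) i * v i j =
            ∑ i ∈ S (j, s), sg A i * v i j := by
          refine Finset.sum_congr rfl ?_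
          intro i hi
          congr 1
          unfold sg
          simp [hi]
        rw [← h3]
        exact h2
      · rw [Finset.not_nonempty_iff_eq_empty.mp hne]
        simpa using hlam0 (j, s)
    have hpart : ∀ g : Fin n → ℝ, (∀ i, v i j = 0 → g i = 0) →
        ∑ i, g i = ∑ s ∈ range N, ∑ i ∈ S (j, s), g i := by
      intro g hg
      have h1 : ∑ i, g i = ∑ i ∈ univ.filter (fun i => v i j ≠ 0), g i := by
        rw [Finset.sum_filter]
        refine Finset.sum_congr rfl ?_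
        intro i _
        split_ifs with h
        · rfl
        · exact hg i (not_not.mp h)
      rw [h1, ← Finset.sum_fiberwise_of_maps_to (t := range N) (g := fun i => sc i j)
        (fun i _ => Finset.mem_range.mpr (hscN i j))]
      refine Finset.sum_congr rfl ?_
      intro s _
      refine Finset.sum_congr ?_ (fun _ _ => rfl)
      ext i
      simp only [hS, Finset.mem_filter, Finset.mem_univ, true_and]
    have hsum1 := hpart (fun i => sg A i * v i j) (fun i hi => by rw [hi, mul_zero])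
    have hsum2 := hpart (fun i => |v i j|) (fun i hi => by rw [hi, abs_zero])
    have hRR : ∑ i, |v i j| = ∑ s ∈ range N, R (j, s) := hsum2
    rw [hsum1, hRR]
    have hstep1 : |∑ s ∈ range N, ∑ i ∈ S (j, s), sg A i * v i j| ≤
        ∑ s ∈ range N, lam (j, s) :=
      (Finset.abs_sum_le_sum_abs _ _).trans (Finset.sum_le_sum hev)
    refine hstep1.trans ?_
    have hstep2 : ∑ s ∈ range N, lam (j, s) = δ * ∑ s ∈ range N, R (j, s) +
        ∑ s ∈ range N, Real.sqrt (c s * (1 / 2) ^ s) * Real.sqrt (R (j, s)) := by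
      rw [Finset.mul_sum, ← Finset.sum_add_distrib]
      refine Finset.sum_congr rfl ?_
      intro s _
      simp only [hlam]
      rw [Real.sqrt_mul (by have := hc0 s; positivity)]
    rw [hstep2]
    have hCS := Real.sum_sqrt_mul_sqrt_le (range N)
      (f := fun s => c s * (1 / 2 : ℝ) ^ s) (g := fun s => R (j, s))
      (fun s => by have := hc0 s; positivity) (fun s => hR0 (j, s))
    have hcsum : ∑ s ∈ range N, c s * (1 / 2 : ℝ) ^ s ≤ 32 * L := by
      have h1 : ∑ s ∈ range N, c s * (1 / 2 : ℝ) ^ s =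
          4 * Real.log 2 * ∑ s ∈ range N, ((s : ℝ) + 1) * ((1 : ℝ) / 2) ^ s +
          8 * L * ∑ s ∈ range N, ((1 : ℝ) / 2) ^ s := by
        rw [Finset.mul_sum, Finset.mul_sum, ← Finset.sum_add_distrib]
        refine Finset.sum_congr rfl ?_
        intro s _
        simp only [hc]
        ring
      rw [h1]
      have h2 := mul_le_mul_of_nonneg_left (sum_half' N) (by positivity : 0 ≤ 4 * Real.log 2)
      have h3 := mul_le_mul_of_nonneg_left (sum_half N) (by positivity : 0 ≤ 8 * L)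
      linarith
    have hfin : Real.sqrt (∑ s ∈ range N, c s * (1 / 2 : ℝ) ^ s) *
        Real.sqrt (∑ s ∈ range N, R (j, s)) ≤
        Real.sqrt (32 * L * ∑ s ∈ range N, R (j, s)) := by
      rw [Real.sqrt_mul (by positivity)]
      exact mul_le_mul_of_nonneg_right (Real.sqrt_le_sqrt hcsum) (Real.sqrt_nonneg _)
    linarith [hCS.trans hfin]

end Pool.Agent.KomH11
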